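import Pool.Agent.LeadSN.Stm

/-!
# Project SN (lead), piece LO: the case `γ 0 ≤ 1` (helper16)
-/

set_option autoImplicit false

open scoped BigOperators
open Pool.Agent.Y282.RB Pool.Agent.LeadSN

namespace Pool.Agent.W2helper16.SN.LO

theorem sum_odd (n : ℕ) : ∑ j ∈ Finset.range n, (2 * (j : ℝ) + 1) = (n : ℝ) ^ 2 := by
  induction n with
  | zero => simp
  | succ n ih =>
    rw [Finset.sum_range_succ, ih]
    push_cast
    ring

/-- bounds for all `j` -/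
theorem bds (hWT : P_WT) {σ : ℝ} (h0 : 0 < σ) (h1 : σ ≤ 1 / 2) (j : ℕ) :
    0 < kk σ j ∧ 0 ≤ cc σ j ∧ kk σ j * cc σ j ≤ 2 ∧ kk σ j * (cc σ j) ^ 2 ≤ 2 * (j : ℝ) + 1 := by
  obtain ⟨k0, c0, hj⟩ := hWT σ h0 h1
  rcases Nat.eq_zero_or_pos j with rfl | hpos
  · rw [k0, c0]
    have h2 : 0 < 1 - σ := by linarith
    refine ⟨by positivity, h0.le, ?_, ?_⟩
    · have e : 1 / (σ * (1 - σ)) * σ = 1 / (1 - σ) := by
        field_simp
      rw [e, div_le_iff₀ h2]
      linarith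
    · have e : 1 / (σ * (1 - σ)) * σ ^ 2 = σ / (1 - σ) := by
        field_simp
      rw [e, div_le_iff₀ h2]
      push_cast
      linarith
  · obtain ⟨a, b, c, d, _⟩ := hj j hpos
    refine ⟨a, b, c, ?_⟩
    calc kk σ j * (cc σ j) ^ 2 = (kk σ j * cc σ j) * cc σ j := by ring
      _ ≤ 2 * cc σ j := mul_le_mul_of_nonneg_right c b
      _ ≤ 2 * (j : ℝ) + 1 := by linarith

theorem p_lo : S_LO := by
  intro hCS hWT hPH n p γ hn hp hL hx0 hx1
  have hn1 : (1 : ℝ) ≤ (n : ℝ) := by exact_mod_cast hn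
  have hnn : (1 : ℝ) ≤ (n : ℝ) ^ 2 := one_le_pow₀ hn1
  have hp100 : 100 ≤ p := by linarith
  have hp0 : 0 < p := by linarith
  have hσ0 : 0 < 1 / p := by positivity
  have hσ1 : 1 / p ≤ 1 / 2 := by
    rw [div_le_div_iff₀ hp0 (by norm_num)]
    linarith
  have hTT : 0 ≤ TT n γ := by
    unfold TT
    exact Finset.sum_nonneg fun i _ => by positivity
  set x := γ 0 with hx
  have hz1 : x ^ 2 ≤ 1 := pow_le_one₀ hx0 hx1
  have hpp : 0 ≤ p / 2 - 1 := by linarith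
  obtain ⟨g1, g2⟩ := hPH.2 p (x ^ 2) (by linarith) (sq_nonneg x) hz1
  by_cases hA : 1 - x ^ 2 ≤ TT n γ
  · exact g1.trans (mul_le_mul_of_nonneg_left hA hpp)
  by_cases hB : p / 4 * (1 - x ^ 2) ^ 2 ≤ TT n γ
  · exact g2.trans (mul_le_mul_of_nonneg_left hB hpp)
  exfalso
  push Not at hA hB
  set z := 1 - x ^ 2 with hz
  have hz0 : 0 < z := lt_of_le_of_lt hTT hA
  set t := Real.sqrt (TT n γ) with ht
  have ht0 : 0 ≤ t := Real.sqrt_nonneg _
  have ht2 : t ^ 2 = TT n γ := Real.sq_sqrt hTT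
  -- the sum identity
  have hKK : KK (1 / p) n ≠ 0 := by
    intro h
    unfold Lam at hL
    rw [h, div_zero] at hL
    exact zero_ne_one hL
  have hsum : ∑ j ∈ Finset.range n, kk (1 / p) j * (yy (1 / p) γ j) ^ 2 = KK (1 / p) n := by
    unfold Lam at hL
    rwa [div_eq_one_iff_eq hKK] at hL
  have hterm : ∀ j ∈ Finset.range n, kk (1 / p) j * (yy (1 / p) γ j) ^ 2 ≤
      x ^ 2 * kk (1 / p) j + (4 * t + t ^ 2 * (2 * (j : ℝ) + 1)) := by
    intro j hj
    rw [Finset.mem_range] at hj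
    obtain ⟨b1, b2, b3, b4⟩ := bds hWT hσ0 hσ1 j
    have hc := hCS n (1 / p) γ j hj hσ0.le hσ1
    set c := cc (1 / p) j
    set k := kk (1 / p) j
    set y := yy (1 / p) γ j
    have hy : |y| ≤ x + c * t := by
      have h3 : |y| ≤ |x| + |x - y| := by
        have := abs_sub_abs_le_abs_sub y x
        rw [abs_sub_comm] at this
        linarith
      rw [abs_of_nonneg hx0] at h3
      linarith
    have hy2 : y ^ 2 ≤ (x + c * t) ^ 2 := by
      rw [← sq_abs]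
      exact pow_le_pow_left₀ (abs_nonneg _) hy 2
    calc k * y ^ 2 ≤ k * (x + c * t) ^ 2 := mul_le_mul_of_nonneg_left hy2 b1.le
      _ = x ^ 2 * k + (2 * (x * t) * (k * c) + t ^ 2 * (k * c ^ 2)) := by ring
      _ ≤ x ^ 2 * k + (4 * t + t ^ 2 * (2 * (j : ℝ) + 1)) := by
          have h5 : 2 * (x * t) * (k * c) ≤ 4 * t := by
            have h6 : 0 ≤ x * t := mul_nonneg hx0 ht0
            have h7 : x * t ≤ 1 * t := mul_le_mul_of_nonneg_right hx1 ht0
            have h8 : 2 * (x * t) * (k * c) ≤ 2 * (x * t) * 2 :=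
              mul_le_mul_of_nonneg_left b3 (by linarith)
            linarith
          have h9 : t ^ 2 * (k * c ^ 2) ≤ t ^ 2 * (2 * (j : ℝ) + 1) :=
            mul_le_mul_of_nonneg_left b4 (sq_nonneg t)
          linarith
  have h1 := Finset.sum_le_sum hterm
  have e1 : ∑ j ∈ Finset.range n, (x ^ 2 * kk (1 / p) j + (4 * t + t ^ 2 * (2 * (j : ℝ) + 1)))
      = x ^ 2 * KK (1 / p) n + ((n : ℝ) * (4 * t) + t ^ 2 * (n : ℝ) ^ 2) := by
    rw [Finset.sum_add_distrib, Finset.sum_add_distrib, Finset.sum_const, Finset.card_range,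
      nsmul_eq_mul, ← Finset.mul_sum, ← Finset.mul_sum, sum_odd, KK]
  rw [hsum, e1] at h1
  have hKKp : p ≤ KK (1 / p) n := by
    have h2 : kk (1 / p) 0 ≤ KK (1 / p) n := by
      unfold KK
      exact Finset.single_le_sum (f := fun j => kk (1 / p) j)
        (fun j _ => (bds hWT hσ0 hσ1 j).1.le) (Finset.mem_range.2 (by omega))
    have h3 : kk (1 / p) 0 = 1 / (1 / p * (1 - 1 / p)) := (hWT (1 / p) hσ0 hσ1).1
    have h4 : p ≤ 1 / (1 / p * (1 - 1 / p)) := by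
      have h5 : 0 < 1 - 1 / p := by linarith
      rw [le_div_iff₀ (mul_pos hσ0 h5)]
      have h6 : p * (1 / p * (1 - 1 / p)) = 1 - 1 / p := by
        field_simp
      rw [h6]
      linarith
    linarith
  have h2 : KK (1 / p) n * z ≤ 4 * (n : ℝ) * t + (n : ℝ) ^ 2 * t ^ 2 := by
    have h3 : KK (1 / p) n * z = KK (1 / p) n - x ^ 2 * KK (1 / p) n := by
      rw [hz]
      ring
    rw [h3]
    linarith
  have h3 : p * z ≤ 4 * (n : ℝ) * t + (n : ℝ) ^ 2 * t ^ 2 :=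
    (mul_le_mul_of_nonneg_right hKKp hz0.le).trans h2
  set s := Real.sqrt p with hs
  have hs0 : 0 < s := Real.sqrt_pos.2 hp0
  have hs2 : s ^ 2 = p := Real.sq_sqrt hp0.le
  have hsn : 10 * (n : ℝ) ≤ s := by
    apply Real.le_sqrt_of_sq_le
    have e2 : (10 * (n : ℝ)) ^ 2 = 100 * (n : ℝ) ^ 2 := by ring
    rw [e2]
    exact hp
  have hts : t < s * z / 2 := by
    apply lt_of_pow_lt_pow_left₀ 2 (by positivity)
    rw [ht2]
    calc TT n γ < p / 4 * z ^ 2 := hB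
      _ = (s * z / 2) ^ 2 := by
        rw [← hs2]
        ring
  have hn0 : 0 ≤ 4 * (n : ℝ) := by linarith
  have h4 : 4 * (n : ℝ) * t ≤ 4 * (n : ℝ) * (s * z / 2) := mul_le_mul_of_nonneg_left hts.le hn0
  have h5 : (n : ℝ) ^ 2 * t ^ 2 ≤ (n : ℝ) ^ 2 * z := by
    apply mul_le_mul_of_nonneg_left _ (by positivity)
    rw [ht2]
    exact hA.le
  have h6 : p * z ≤ (2 * (n : ℝ) * s + (n : ℝ) ^ 2) * z := by
    have e3 : (2 * (n : ℝ) * s + (n : ℝ) ^ 2) * z = 4 * (n : ℝ) * (s * z / 2) + (n : ℝ) ^ 2 * z := by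
      ring
    rw [e3]
    linarith
  have h7 : p ≤ 2 * (n : ℝ) * s + (n : ℝ) ^ 2 := le_of_mul_le_mul_right h6 hz0
  have h8 : 10 * (n : ℝ) * s ≤ s * s := mul_le_mul_of_nonneg_right hsn hs0.le
  have e4 : s * s = p := by rw [← hs2, sq]
  rw [e4] at h8
  linarith

end Pool.Agent.W2helper16.SN.LO
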