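import Pool.Agent.LeadSN.Stm

/-!
# Project SN (lead), piece W: the products `W_j` (helper16)
-/

set_option autoImplicit false

open scoped BigOperators
open Pool.Agent.Y282.RB Pool.Agent.LeadSN

namespace Pool.Agent.W2helper16.SN.W

theorem WW_zero (σ : ℝ) : WW σ 0 = 1 := by
  simp [WW]

theorem WW_succ (σ : ℝ) (j : ℕ) :
    WW σ (j + 1) = WW σ j * (((j : ℝ) + σ) / ((j : ℝ) + 1 - σ)) := by
  unfold WW
  rw [Finset.prod_range_succ]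

theorem WW_pos {σ : ℝ} (h0 : 0 < σ) (h1 : σ < 1) (j : ℕ) : 0 < WW σ j := by
  unfold WW
  apply Finset.prod_pos
  intro i _
  have hi : (0 : ℝ) ≤ (i : ℝ) := Nat.cast_nonneg i
  apply div_pos <;> linarith

/-- `j W_j ≤ σ (1 + 4 σ j)` -/
theorem key {σ : ℝ} (h0 : 0 < σ) (h1 : σ ≤ 1 / 2) (j : ℕ) (hj : 4 * σ * ((j : ℝ) + 1) ≤ 1) :
    ((j : ℝ) + 1) * WW σ (j + 1) ≤ σ * (1 + 4 * σ * ((j : ℝ) + 1)) := by
  induction j with
  | zero =>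
    rw [WW_succ, WW_zero]
    have h2 : 0 < 1 - σ := by linarith
    have h3 : σ / (1 - σ) ≤ σ * (1 + 4 * σ) := by
      rw [div_le_iff₀ h2]
      nlinarith [mul_pos h0 h0, mul_pos (mul_pos h0 h0) h2]
    have e : ((0 : ℕ) : ℝ) = 0 := Nat.cast_zero
    rw [e]
    have e2 : (0 + 1) * (1 * ((0 + σ) / (0 + 1 - σ))) = σ / (1 - σ) := by
      simp
    have e3 : σ * (1 + 4 * σ * (0 + 1)) = σ * (1 + 4 * σ) := by ring
    rw [e2, e3]
    exact h3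
  | succ j ih =>
    have hj0 : (0 : ℝ) ≤ (j : ℝ) := Nat.cast_nonneg j
    push_cast at hj ⊢
    have h4 : 4 * σ * ((j : ℝ) + 1) ≤ 1 := by nlinarith
    have h5 := ih h4
    rw [WW_succ σ (j + 1)]
    push_cast
    have hW := WW_pos h0 (by linarith : σ < 1) (j + 1)
    set w := WW σ (j + 1) with hw
    have hd : 0 < (j : ℝ) + 1 + 1 - σ := by linarith
    have h6 : ((j : ℝ) + 1 + 1) * (((j : ℝ) + 1 + σ) / ((j : ℝ) + 1 + 1 - σ))
        ≤ ((j : ℝ) + 1) * (1 + 2 * σ) := by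
      rw [← mul_div_assoc, div_le_iff₀ hd]
      have h7 : 0 ≤ 2 * ((j : ℝ) + 1) ^ 2 - 2 * σ * ((j : ℝ) + 1) - 1 := by nlinarith
      nlinarith [mul_nonneg h0.le h7]
    calc ((j : ℝ) + 1 + 1) * (w * (((j : ℝ) + 1 + σ) / ((j : ℝ) + 1 + 1 - σ)))
        = w * (((j : ℝ) + 1 + 1) * (((j : ℝ) + 1 + σ) / ((j : ℝ) + 1 + 1 - σ))) := by ring
      _ ≤ w * (((j : ℝ) + 1) * (1 + 2 * σ)) := mul_le_mul_of_nonneg_left h6 hW.le
      _ = (((j : ℝ) + 1) * w) * (1 + 2 * σ) := by ring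
      _ ≤ (σ * (1 + 4 * σ * ((j : ℝ) + 1))) * (1 + 2 * σ) :=
          mul_le_mul_of_nonneg_right h5 (by linarith)
      _ ≤ σ * (1 + 4 * σ * ((j : ℝ) + 1 + 1)) := by
          have h8 : (1 + 4 * σ * ((j : ℝ) + 1)) * (1 + 2 * σ) ≤ 1 + 4 * σ * ((j : ℝ) + 1 + 1) := by
            nlinarith
          nlinarith

theorem p_w : S_W := by
  intro hHS n σ hn h0 hσ
  have hn1 : (1 : ℝ) ≤ (n : ℝ) := by exact_mod_cast hn
  have hn0 : (0 : ℝ) < (n : ℝ) := by linarith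
  have hσn : 4 * σ * (n : ℝ) ≤ 1 / (25 * (n : ℝ)) := by
    rw [le_div_iff₀ (by positivity)]
    nlinarith
  have hσ1 : σ ≤ 1 / 100 := by
    have h9 : (1 : ℝ) ≤ (n : ℝ) ^ 2 := one_le_pow₀ hn1
    have h10 : σ * (100 * 1) ≤ σ * (100 * (n : ℝ) ^ 2) :=
      mul_le_mul_of_nonneg_left (by linarith) h0.le
    linarith
  have hσ4 : 4 * σ * (n : ℝ) ≤ 1 := by
    refine hσn.trans ?_
    rw [div_le_one (by positivity)]
    linarith
  have part1 : ∀ j : ℕ, 1 ≤ j → j ≤ n → 0 < WW σ j ∧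
      WW σ j ≤ σ * (1 + 1 / (25 * (n : ℝ))) / (j : ℝ) := by
    intro j hj hjn
    obtain ⟨i, rfl⟩ : ∃ i, j = i + 1 := ⟨j - 1, by omega⟩
    have hi0 : (0 : ℝ) ≤ (i : ℝ) := Nat.cast_nonneg i
    have hin : ((i : ℝ) + 1) ≤ (n : ℝ) := by exact_mod_cast hjn
    refine ⟨WW_pos h0 (by linarith) _, ?_⟩
    have h4 : 4 * σ * ((i : ℝ) + 1) ≤ 4 * σ * (n : ℝ) := by nlinarith
    have h5 := key h0 (by linarith) i (h4.trans hσ4)
    push_cast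
    rw [le_div_iff₀ (by linarith)]
    calc WW σ (i + 1) * ((i : ℝ) + 1) = ((i : ℝ) + 1) * WW σ (i + 1) := by ring
      _ ≤ σ * (1 + 4 * σ * ((i : ℝ) + 1)) := h5
      _ ≤ σ * (1 + 1 / (25 * (n : ℝ))) := by
          apply mul_le_mul_of_nonneg_left _ h0.le
          linarith
  refine ⟨part1, ?_⟩
  set c : ℝ := 1 + 1 / (25 * (n : ℝ)) with hc
  have hc0 : 0 < c := by positivity
  have hsum := (hHS n (fun j => 1 / (j : ℝ) + 1 / ((j : ℝ) + 1)) hn (fun j _ => le_refl _)).2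
  have hterm : ∀ j ∈ Finset.Ico 1 n, (2 * (j : ℝ) + 1) * WW σ j * WW σ (j + 1)
      ≤ σ ^ 2 * c ^ 2 * (1 / (j : ℝ) + 1 / ((j : ℝ) + 1)) := by
    intro j hj
    rw [Finset.mem_Ico] at hj
    have hj1 : (1 : ℝ) ≤ (j : ℝ) := by exact_mod_cast hj.1
    obtain ⟨a0, a1⟩ := part1 j hj.1 hj.2.le
    obtain ⟨b0, b1⟩ := part1 (j + 1) (by omega) (by omega)
    push_cast at b1
    have h6 : WW σ j * WW σ (j + 1) ≤ (σ * c / (j : ℝ)) * (σ * c / ((j : ℝ) + 1)) :=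
      mul_le_mul a1 b1 b0.le (by positivity)
    calc (2 * (j : ℝ) + 1) * WW σ j * WW σ (j + 1)
        = (2 * (j : ℝ) + 1) * (WW σ j * WW σ (j + 1)) := by ring
      _ ≤ (2 * (j : ℝ) + 1) * ((σ * c / (j : ℝ)) * (σ * c / ((j : ℝ) + 1))) :=
          mul_le_mul_of_nonneg_left h6 (by linarith)
      _ = σ ^ 2 * c ^ 2 * (1 / (j : ℝ) + 1 / ((j : ℝ) + 1)) := by
          field_simp
          ring
  have hsplit : ∑ j ∈ Finset.range n, (2 * (j : ℝ) + 1) * WW σ j * WW σ (j + 1)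
      = (2 * ((0 : ℕ) : ℝ) + 1) * WW σ 0 * WW σ (0 + 1) +
        ∑ j ∈ Finset.Ico 1 n, (2 * (j : ℝ) + 1) * WW σ j * WW σ (j + 1) := by
    rw [Finset.range_eq_Ico, Finset.sum_eq_sum_Ico_succ_bot (by omega : 0 < n)]
  rw [hsplit]
  have h0t : (2 * ((0 : ℕ) : ℝ) + 1) * WW σ 0 * WW σ (0 + 1) = σ / (1 - σ) := by
    rw [WW_succ, WW_zero]
    simp
  rw [h0t]
  have h7 := Finset.sum_le_sum hterm
  rw [← Finset.mul_sum] at h7
  have h8 : σ ^ 2 * c ^ 2 * ∑ j ∈ Finset.Ico 1 n, (1 / (j : ℝ) + 1 / ((j : ℝ) + 1))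
      ≤ σ ^ 2 * c ^ 2 * (1 + 2 * Real.log (n : ℝ)) :=
    mul_le_mul_of_nonneg_left hsum (by positivity)
  linarith

end Pool.Agent.W2helper16.SN.W
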